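import Mathlib

/-!
# MP_21d1af_co : two-dimensional `k`-piercing partitions into proper boxes

`p_box(2,k) = 4 (k - 1)`.

Proof of the lower bound.  Let the boxes be `R_i × C_i`.  Solve the two zero-sum games
row player against boxes, and column player against boxes, (von Neumann minimax): this gives a
probability vector `lam` on the rows with `x_i = lam(R_i) ≤ τ` for all `i`, and a probability
vector `p` on the boxes such that every row has `p`-mass at least `τ`; similarly `mu`, `y_i`, `σ`,
`q` for the columns.  The key point is `τ + σ ≤ 1`.  After that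
`0 ≤ ∑ (1 - σ - x_i) (σ - y_i)` yields `k - 1 ≤ m (1 - σ) σ ≤ m / 4`.
-/

open Finset Filter Topology

namespace Pool.Agent.Results.MP_21d1af_co.BoxPiercing

/-- A proper box `B₁ × B₂` of `[n]²`, coded by its two (nonempty, not full) sides. -/
def IsProperBox {n : ℕ} (B : Finset (Fin n) × Finset (Fin n)) : Prop :=
  B.1.Nonempty ∧ B.2.Nonempty ∧ B.1 ≠ Finset.univ ∧ B.2 ≠ Finset.univ

/-- `P` is a partition of `[n]²` into proper boxes such that every axis-parallel line meets at
least `k` of the boxes. -/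
structure IsPiercingPartition (n k : ℕ) (P : Finset (Finset (Fin n) × Finset (Fin n))) :
    Prop where
  proper : ∀ B ∈ P, IsProperBox B
  partition : ∀ x : Fin n × Fin n, ∃! B, B ∈ P ∧ x ∈ B.1 ×ˢ B.2
  fstLine : ∀ i : Fin n, k ≤ (P.filter fun B => ∃ x ∈ B.1 ×ˢ B.2, x.1 = i).card
  sndLine : ∀ j : Fin n, k ≤ (P.filter fun B => ∃ x ∈ B.1 ×ˢ B.2, x.2 = j).card

/-- `p_box(n, 2, k)`: the least number of parts. -/
noncomputable def pBox (n k : ℕ) : ℕ :=
  sInf {m | ∃ P : Finset (Finset (Fin n) × Finset (Fin n)), IsPiercingPartition n k P ∧ P.card = m}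

/-! ### Zero-sum games -/

/-- von Neumann's minimax theorem for a `0/1` incidence matrix. -/
lemma game {α ι : Type*} [Fintype α] [Fintype ι] [Nonempty α] [Nonempty ι]
    (ρ : ι → α → ℝ) :
    ∃ (τ : ℝ) (lam : α → ℝ) (p : ι → ℝ), lam ∈ stdSimplex ℝ α ∧ p ∈ stdSimplex ℝ ι ∧
      (∀ i, ∑ a, lam a * ρ i a ≤ τ) ∧ (∀ a, τ ≤ ∑ i, p i * ρ i a) := by
  classical
  set f : (α → ℝ) → (ι → ℝ) → ℝ := fun l p => ∑ i, ∑ a, l a * p i * ρ i a with hf
  obtain ⟨l, hl, p, hp, h⟩ := Sion.exists_isSaddlePointOn (X := stdSimplex ℝ α)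
    (Y := stdSimplex ℝ ι) (f := f)
    ⟨_, single_mem_stdSimplex ℝ (Classical.arbitrary α)⟩
    (convex_stdSimplex ℝ α) (isCompact_stdSimplex ℝ α)
    (fun y _ => (Continuous.lowerSemicontinuous (by fun_prop)).lowerSemicontinuousOn _)
    (fun y _ => ConvexOn.quasiconvexOn ⟨convex_stdSimplex ℝ α, fun u _ v _ s t _ _ _ => le_of_eq (by
      simp only [hf, Pi.add_apply, Pi.smul_apply, smul_eq_mul, Finset.mul_sum,
        ← Finset.sum_add_distrib]
      refine Finset.sum_congr rfl fun i _ => Finset.sum_congr rfl fun a _ => ?_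
      ring)⟩)
    (convex_stdSimplex ℝ ι)
    ⟨_, single_mem_stdSimplex ℝ (Classical.arbitrary ι)⟩
    (isCompact_stdSimplex ℝ ι)
    (fun x _ => (Continuous.upperSemicontinuous (by fun_prop)).upperSemicontinuousOn _)
    (fun x _ => ConcaveOn.quasiconcaveOn ⟨convex_stdSimplex ℝ ι, fun u _ v _ s t _ _ _ =>
      le_of_eq (by
      simp only [hf, Pi.add_apply, Pi.smul_apply, smul_eq_mul, Finset.mul_sum,
        ← Finset.sum_add_distrib]
      refine Finset.sum_congr rfl fun i _ => Finset.sum_congr rfl fun a _ => ?_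
      ring)⟩)
  refine ⟨f l p, l, p, hl, hp, fun i => ?_, fun a => ?_⟩
  · have := h l hl (Pi.single i 1) (single_mem_stdSimplex ℝ i)
    refine le_trans (le_of_eq ?_) this
    simp only [hf]
    rw [Finset.sum_eq_single i]
    · simp
    · intro j _ hj
      simp [hj]
    · simp
  · have := h (Pi.single a 1) (single_mem_stdSimplex ℝ a) p hp
    refine le_trans this (le_of_eq ?_)
    simp only [hf]
    refine Finset.sum_congr rfl fun i _ => ?_
    rw [Finset.sum_eq_single a]
    · simp
    · intro j _ hj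
      simp [hj]
    · simp

/-- The key inequality, in the case `τ > 1/2`. -/
lemma key {α β ι : Type*} [Fintype α] [Fintype β] [Fintype ι]
    (r : ι → α → Prop) (c : ι → β → Prop) [∀ i a, Decidable (r i a)] [∀ i b, Decidable (c i b)]
    (hcell : ∀ i h a b, r i a → c i b → r h a → c h b → i = h)
    (hr0 : ∀ i, ∃ a, r i a) (hc0 : ∀ i, ∃ b, c i b) (hr1 : ∀ i, ∃ a, ¬ r i a)
    {τ σ : ℝ} {lam : α → ℝ} {p q : ι → ℝ}
    (hlam : lam ∈ stdSimplex ℝ α) (hp : p ∈ stdSimplex ℝ ι) (hq : q ∈ stdSimplex ℝ ι)
    (hx : ∀ i, ∑ a, lam a * (if r i a then 1 else 0) ≤ τ)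
    (hpτ : ∀ a, τ ≤ ∑ i, p i * (if r i a then 1 else 0))
    (hqσ : ∀ b, σ ≤ ∑ i, q i * (if c i b then 1 else 0))
    (hτ : 1 / 2 < τ) : τ + σ ≤ 1 := by
  classical
  set N : ι → ι → ℝ := fun i h => if (∃ b, c i b ∧ c h b) then 0 else 1 with hN
  have N0 : ∀ i h, 0 ≤ N i h := fun i h => by simp only [hN]; split_ifs <;> norm_num
  -- complementary slackness
  have hslack : ∀ i, 0 < p i → ∑ a, lam a * (if r i a then (1:ℝ) else 0) = τ := by
    have h1 : ∑ i, p i * (τ - ∑ a, lam a * (if r i a then (1:ℝ) else 0)) ≤ 0 := by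
      have e1 : ∑ i, p i * (τ - ∑ a, lam a * (if r i a then (1:ℝ) else 0))
          = τ - ∑ a, lam a * ∑ i, p i * (if r i a then (1:ℝ) else 0) := by
        simp only [mul_sub, Finset.sum_sub_distrib, ← Finset.sum_mul, hp.2, one_mul,
          Finset.mul_sum]
        rw [Finset.sum_comm]
        congr 1
        refine Finset.sum_congr rfl fun a _ => Finset.sum_congr rfl fun i _ => ?_
        ring
      rw [e1]
      have : ∑ a, lam a * τ ≤ ∑ a, lam a * ∑ i, p i * (if r i a then (1:ℝ) else 0) :=
        Finset.sum_le_sum fun a _ => mul_le_mul_of_nonneg_left (hpτ a) (hlam.1 a)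
      rw [← Finset.sum_mul, hlam.2, one_mul] at this
      linarith
    have h2 : ∀ i ∈ (Finset.univ : Finset ι),
        0 ≤ p i * (τ - ∑ a, lam a * (if r i a then (1:ℝ) else 0)) :=
      fun i _ => mul_nonneg (hp.1 i) (sub_nonneg.2 (hx i))
    have h3 := (Finset.sum_eq_zero_iff_of_nonneg h2).1 (le_antisymm h1 (Finset.sum_nonneg h2))
    intro i hi
    have := h3 i (Finset.mem_univ i)
    rcases mul_eq_zero.1 this with h | h
    · exact absurd h (ne_of_gt hi)
    · linarith
  -- two boxes in the support of `p` have a common row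
  have hcommon : ∀ i h, 0 < p i → 0 < p h → ∃ a, r i a ∧ r h a := by
    intro i h hi hh
    by_contra hcon
    push Not at hcon
    have e : ∑ a, lam a * (if r i a then (1:ℝ) else 0) + ∑ a, lam a * (if r h a then (1:ℝ) else 0)
        ≤ ∑ a, lam a := by
      rw [← Finset.sum_add_distrib]
      refine Finset.sum_le_sum fun a _ => ?_
      have := hlam.1 a
      by_cases h1 : r i a
      · have h2 := hcon a h1
        simp [h1, h2]
      · by_cases h2 : r h a
        · simp [h1, h2]
        · simpa [h1, h2] using this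
    rw [hslack i hi, hslack h hh, hlam.2] at e
    linarith
  -- if `i ≠ h` have a common row then they have no common column
  have hNone : ∀ i h, i ≠ h → (∃ a, r i a ∧ r h a) → N i h = 1 := by
    intro i h hih ⟨a, h1, h2⟩
    simp only [hN]
    rw [if_neg]
    rintro ⟨b, h3, h4⟩
    exact hih (hcell i h a b h1 h3 h2 h4)
  -- lower bound
  have hlow : ∀ h, τ ≤ ∑ i, p i * N i h := by
    intro h
    by_cases hph : p h = 0
    · obtain ⟨a, ha⟩ := hr0 h
      refine (hpτ a).trans (Finset.sum_le_sum fun i _ => ?_)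
      by_cases hi : r i a
      · by_cases hih : i = h
        · subst hih; simp [hph]
        · rw [hNone i h hih ⟨a, hi, ha⟩]; simp [hi]
      · rw [if_neg hi, mul_zero]
        exact mul_nonneg (hp.1 i) (N0 i h)
    · have hph' : 0 < p h := lt_of_le_of_ne (hp.1 h) (Ne.symm hph)
      obtain ⟨a, ha⟩ := hr1 h
      refine (hpτ a).trans (Finset.sum_le_sum fun i _ => ?_)
      by_cases hih : i = h
      · subst hih
        rw [if_neg ha, mul_zero]
        exact mul_nonneg (hp.1 i) (N0 i i)
      · by_cases hi : p i = 0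
        · simp [hi]
        · have hi' : 0 < p i := lt_of_le_of_ne (hp.1 i) (Ne.symm hi)
          rw [hNone i h hih (hcommon i h hi' hph')]
          refine mul_le_mul_of_nonneg_left ?_ (hp.1 i)
          split_ifs <;> norm_num
  -- upper bound
  have hup : ∀ i, ∑ h, q h * N i h ≤ 1 - σ := by
    intro i
    obtain ⟨b, hb⟩ := hc0 i
    have : ∑ h, q h * N i h ≤ ∑ h, (q h - q h * (if c h b then (1:ℝ) else 0)) := by
      refine Finset.sum_le_sum fun h _ => ?_
      by_cases hh : c h b
      · have : N i h = 0 := by simp only [hN]; rw [if_pos ⟨b, hb, hh⟩]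
        rw [this]; simp [hh]
      · rw [if_neg hh, mul_zero, sub_zero]
        have : N i h ≤ 1 := by simp only [hN]; split_ifs <;> norm_num
        calc q h * N i h ≤ q h * 1 := mul_le_mul_of_nonneg_left this (hq.1 h)
          _ = q h := mul_one _
    rw [Finset.sum_sub_distrib, hq.2] at this
    linarith [hqσ b]
  have h1 : ∑ i, p i * ∑ h, q h * N i h ≤ 1 - σ := by
    calc ∑ i, p i * ∑ h, q h * N i h ≤ ∑ i, p i * (1 - σ) :=
          Finset.sum_le_sum fun i _ => mul_le_mul_of_nonneg_left (hup i) (hp.1 i)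
      _ = 1 - σ := by rw [← Finset.sum_mul, hp.2, one_mul]
  have h2 : τ ≤ ∑ h, q h * ∑ i, p i * N i h := by
    calc τ = ∑ h, q h * τ := by rw [← Finset.sum_mul, hq.2, one_mul]
      _ ≤ ∑ h, q h * ∑ i, p i * N i h :=
          Finset.sum_le_sum fun h _ => mul_le_mul_of_nonneg_left (hlow h) (hq.1 h)
  have h3 : ∑ i, p i * ∑ h, q h * N i h = ∑ h, q h * ∑ i, p i * N i h := by
    simp only [Finset.mul_sum]
    rw [Finset.sum_comm]
    refine Finset.sum_congr rfl fun h _ => Finset.sum_congr rfl fun i _ => ?_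
    ring
  linarith

/-- The lower bound, for abstract incidence data. -/
lemma core {α β ι : Type*} [Fintype α] [Fintype β] [Fintype ι] [Nonempty α] [Nonempty β]
    (r : ι → α → Prop) (c : ι → β → Prop) [∀ i a, Decidable (r i a)] [∀ i b, Decidable (c i b)]
    (hcell : ∀ a b, ∃! i, r i a ∧ c i b)
    (hr0 : ∀ i, ∃ a, r i a) (hc0 : ∀ i, ∃ b, c i b)
    (hr1 : ∀ i, ∃ a, ¬ r i a) (hc1 : ∀ i, ∃ b, ¬ c i b) (k : ℕ)
    (hrow : ∀ a, k ≤ (Finset.univ.filter fun i => r i a).card)
    (hcol : ∀ b, k ≤ (Finset.univ.filter fun i => c i b).card) :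
    4 * ((k : ℝ) - 1) ≤ Fintype.card ι := by
  classical
  have hne : Nonempty ι := by
    obtain ⟨i, -⟩ := (hcell (Classical.arbitrary α) (Classical.arbitrary β)).exists
    exact ⟨i⟩
  obtain ⟨τ, lam, p, hlam, hp, hx, hpτ⟩ := game (α := α) (ι := ι)
    (fun i a => if r i a then (1:ℝ) else 0)
  obtain ⟨σ, mu, q, hmu, hq, hy, hqσ⟩ := game (α := β) (ι := ι)
    (fun i b => if c i b then (1:ℝ) else 0)
  have hcell' : ∀ i h a b, r i a → c i b → r h a → c h b → i = h := fun i h a b h1 h2 h3 h4 =>
    (hcell a b).unique ⟨h1, h2⟩ ⟨h3, h4⟩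
  have hsum : τ + σ ≤ 1 := by
    by_cases h1 : 1 / 2 < τ
    · exact key r c hcell' hr0 hc0 hr1 hlam hp hq hx hpτ hqσ h1
    · by_cases h2 : 1 / 2 < σ
      · have := key c r (fun i h b a h1 h2 h3 h4 => hcell' i h a b h2 h1 h4 h3) hc0 hr0 hc1
          hmu hq hp hy hqσ hpτ h2
        linarith
      · linarith
  set x : ι → ℝ := fun i => ∑ a, lam a * (if r i a then (1:ℝ) else 0) with hxdef
  set y : ι → ℝ := fun i => ∑ b, mu b * (if c i b then (1:ℝ) else 0) with hydef
  have hx0 : ∀ i, 0 ≤ x i := fun i => Finset.sum_nonneg fun a _ =>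
    mul_nonneg (hlam.1 a) (by split_ifs <;> norm_num)
  have hy0 : ∀ i, 0 ≤ y i := fun i => Finset.sum_nonneg fun a _ =>
    mul_nonneg (hmu.1 a) (by split_ifs <;> norm_num)
  have hσ0 : 0 ≤ σ := (hy0 (Classical.arbitrary ι)).trans (hy _)
  have hτ0 : 0 ≤ τ := (hx0 (Classical.arbitrary ι)).trans (hx _)
  have hxk : (k : ℝ) ≤ ∑ i, x i := by
    have : ∑ i, x i = ∑ a, lam a * ((Finset.univ.filter fun i => r i a).card : ℝ) := by
      simp only [hxdef]
      rw [Finset.sum_comm]
      refine Finset.sum_congr rfl fun a _ => ?_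
      rw [← Finset.mul_sum, Finset.sum_boole]
    rw [this]
    calc (k : ℝ) = ∑ a, lam a * (k : ℝ) := by rw [← Finset.sum_mul, hlam.2, one_mul]
      _ ≤ _ := Finset.sum_le_sum fun a _ =>
        mul_le_mul_of_nonneg_left (by exact_mod_cast hrow a) (hlam.1 a)
  have hyk : (k : ℝ) ≤ ∑ i, y i := by
    have : ∑ i, y i = ∑ b, mu b * ((Finset.univ.filter fun i => c i b).card : ℝ) := by
      simp only [hydef]
      rw [Finset.sum_comm]
      refine Finset.sum_congr rfl fun a _ => ?_
      rw [← Finset.mul_sum, Finset.sum_boole]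
    rw [this]
    calc (k : ℝ) = ∑ a, mu a * (k : ℝ) := by rw [← Finset.sum_mul, hmu.2, one_mul]
      _ ≤ _ := Finset.sum_le_sum fun a _ =>
        mul_le_mul_of_nonneg_left (by exact_mod_cast hcol a) (hmu.1 a)
  have hxy : ∑ i, x i * y i = 1 := by
    have e1 : ∀ i, x i * y i = ∑ a, ∑ b, lam a * mu b *
        ((if r i a then (1:ℝ) else 0) * (if c i b then (1:ℝ) else 0)) := by
      intro i
      simp only [hxdef, hydef]
      rw [Finset.sum_mul_sum]
      refine Finset.sum_congr rfl fun a _ => Finset.sum_congr rfl fun b _ => ?_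
      ring
    simp only [e1]
    rw [Finset.sum_comm]
    have e2 : ∀ a, ∑ i, ∑ b, lam a * mu b *
        ((if r i a then (1:ℝ) else 0) * (if c i b then (1:ℝ) else 0)) = lam a := by
      intro a
      rw [Finset.sum_comm]
      have e3 : ∀ b, ∑ i, lam a * mu b *
          ((if r i a then (1:ℝ) else 0) * (if c i b then (1:ℝ) else 0)) = lam a * mu b := by
        intro b
        rw [← Finset.mul_sum]
        obtain ⟨i, hi, hu⟩ := hcell a b
        rw [Finset.sum_eq_single i]
        · simp [hi.1, hi.2]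
        · intro j _ hj
          by_cases h1 : r j a
          · have h2 : ¬ c j b := fun h2 => hj (hu j ⟨h1, h2⟩)
            simp [h2]
          · simp [h1]
        · simp
      simp only [e3]
      rw [← Finset.mul_sum, hmu.2, mul_one]
    simp only [e2]
    exact hlam.2
  have hmain : 0 ≤ ∑ i, ((1 - σ) - x i) * (σ - y i) := by
    refine Finset.sum_nonneg fun i _ => mul_nonneg ?_ ?_
    · have : x i ≤ τ := hx i
      linarith
    · have : y i ≤ σ := hy i
      linarith
  have hexp : ∑ i, ((1 - σ) - x i) * (σ - y i)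
      = (Fintype.card ι : ℝ) * ((1 - σ) * σ) - σ * ∑ i, x i - (1 - σ) * ∑ i, y i
        + ∑ i, x i * y i := by
    have : ∀ i, ((1 - σ) - x i) * (σ - y i)
        = (1 - σ) * σ - σ * x i - (1 - σ) * y i + x i * y i := fun i => by ring
    simp only [this, Finset.sum_add_distrib, Finset.sum_sub_distrib, ← Finset.mul_sum,
      Finset.sum_const, Finset.card_univ, nsmul_eq_mul]
    ring
  rw [hexp, hxy] at hmain
  have hm : (0 : ℝ) ≤ Fintype.card ι := Nat.cast_nonneg _
  have h1 : σ * (k : ℝ) ≤ σ * ∑ i, x i := mul_le_mul_of_nonneg_left hxk hσ0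
  have h2 : (1 - σ) * (k : ℝ) ≤ (1 - σ) * ∑ i, y i :=
    mul_le_mul_of_nonneg_left hyk (by linarith)
  have h3 : (1 - σ) * σ ≤ 1 / 4 := by nlinarith [sq_nonneg (σ - 1 / 2)]
  have h4 : (Fintype.card ι : ℝ) * ((1 - σ) * σ) ≤ (Fintype.card ι : ℝ) * (1 / 4) :=
    mul_le_mul_of_nonneg_left h3 hm
  linarith

/-- Every `k`-piercing partition of `[n]²` (`n ≥ 1`) into proper boxes has at least `4(k-1)`
parts. -/
theorem lower {n k : ℕ} (hn : 0 < n) {P : Finset (Finset (Fin n) × Finset (Fin n))}
    (hP : IsPiercingPartition n k P) : 4 * (k - 1) ≤ P.card := by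
  classical
  have : Nonempty (Fin n) := ⟨⟨0, hn⟩⟩
  have hmem : ∀ B ∈ P, ∀ i : Fin n, (∃ x ∈ B.1 ×ˢ B.2, x.1 = i) ↔ i ∈ B.1 := by
    intro B hB i
    obtain ⟨b, hb⟩ := (hP.proper B hB).2.1
    constructor
    · rintro ⟨x, hx, rfl⟩
      exact (Finset.mem_product.1 hx).1
    · intro h
      exact ⟨(i, b), Finset.mem_product.2 ⟨h, hb⟩, rfl⟩
  have hmem' : ∀ B ∈ P, ∀ i : Fin n, (∃ x ∈ B.1 ×ˢ B.2, x.2 = i) ↔ i ∈ B.2 := by
    intro B hB i
    obtain ⟨b, hb⟩ := (hP.proper B hB).1
    constructor
    · rintro ⟨x, hx, rfl⟩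
      exact (Finset.mem_product.1 hx).2
    · intro h
      exact ⟨(b, i), Finset.mem_product.2 ⟨hb, h⟩, rfl⟩
  have hcount : ∀ (Q : Finset (Fin n) × Finset (Fin n) → Prop) [DecidablePred Q],
      (P.filter Q).card = (Finset.univ.filter fun i : P => Q i.1).card := by
    intro Q _
    have : P.filter Q = (Finset.univ.filter fun i : P => Q i.1).map
        (Function.Embedding.subtype _) := by
      ext B
      simp only [Finset.mem_filter, Finset.mem_map, Finset.mem_univ, true_and,
        Function.Embedding.coe_subtype, Subtype.exists, exists_and_left, exists_prop]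
      constructor
      · rintro ⟨h1, h2⟩; exact ⟨B, h2, h1, rfl⟩
      · rintro ⟨B', h2, h1, rfl⟩; exact ⟨h1, h2⟩
    rw [this, Finset.card_map]
  have h := core (α := Fin n) (β := Fin n) (ι := P) (fun i a => a ∈ i.1.1) (fun i b => b ∈ i.1.2)
    (fun a b => by
      obtain ⟨B, ⟨hB, hab⟩, hu⟩ := hP.partition (a, b)
      refine ⟨⟨B, hB⟩, by simpa using hab, ?_⟩
      rintro ⟨B', hB'⟩ h'
      exact Subtype.ext (hu B' ⟨hB', Finset.mem_product.2 h'⟩))
    (fun i => (hP.proper i.1 i.2).1) (fun i => (hP.proper i.1 i.2).2.1)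
    (fun i => by
      by_contra hcon
      push Not at hcon
      exact (hP.proper i.1 i.2).2.2.1 (Finset.eq_univ_iff_forall.2 hcon))
    (fun i => by
      by_contra hcon
      push Not at hcon
      exact (hP.proper i.1 i.2).2.2.2 (Finset.eq_univ_iff_forall.2 hcon))
    k
    (fun a => by
      refine (hP.fstLine a).trans (le_of_eq ?_)
      rw [← hcount (fun B => a ∈ B.1)]
      congr 1
      exact Finset.filter_congr fun B hB => hmem B hB a)
    (fun b => by
      refine (hP.sndLine b).trans (le_of_eq ?_)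
      rw [← hcount (fun B => b ∈ B.2)]
      congr 1
      exact Finset.filter_congr fun B hB => hmem' B hB b)
  rw [Fintype.card_coe] at h
  rcases Nat.eq_zero_or_pos k with rfl | hk
  · simp
  · have : ((4 * (k - 1) : ℕ) : ℝ) ≤ (P.card : ℝ) := by
      rw [Nat.cast_mul, Nat.cast_sub hk]
      simpa using h
    exact_mod_cast this

/-! ### The construction with `4 (k - 1)` boxes -/

/-- class of a coordinate inside its half -/
def cls (K : ℕ) (hK : 0 < K) {n : ℕ} (a : Fin n) : Fin K :=
  if h : a.1 < K then ⟨a.1, h⟩ else ⟨min (a.1 - K) (K - 1), by omega⟩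

/-- half of a coordinate -/
def hf (K : ℕ) {n : ℕ} (a : Fin n) : Bool := decide (a.1 < K)

/-- a representative with prescribed half and class -/
def rep (K : ℕ) {n : ℕ} (hn : 2 * K ≤ n) (s : Bool) (c : Fin K) : Fin n :=
  if s then ⟨c.1, by omega⟩ else ⟨K + c.1, by omega⟩

lemma hf_rep {K n : ℕ} (hn : 2 * K ≤ n) (s : Bool) (c : Fin K) :
    hf K (rep K hn s c) = s := by
  have := c.2
  cases s <;> simp [hf, rep]

lemma cls_rep {K n : ℕ} (hK : 0 < K) (hn : 2 * K ≤ n) (s : Bool) (c : Fin K) :
    cls K hK (rep K hn s c) = c := by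
  have := c.2
  cases s
  · simp only [cls, rep, Bool.false_eq_true, if_false]
    rw [dif_neg (by omega)]
    ext
    simp only
    omega
  · simp only [cls, rep, if_true]
    rw [dif_pos this]

/-- label of a cell -/
def label (K : ℕ) (hK : 0 < K) {n : ℕ} (x : Fin n × Fin n) : Bool × Bool × Fin K :=
  (hf K x.1, hf K x.2, if hf K x.1 = hf K x.2 then cls K hK x.2 else cls K hK x.1)

/-- box with a given label -/
def box (K : ℕ) (hK : 0 < K) (n : ℕ) (l : Bool × Bool × Fin K) :
    Finset (Fin n) × Finset (Fin n) :=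
  (Finset.univ.filter fun a => hf K a = l.1 ∧ (l.1 = l.2.1 ∨ cls K hK a = l.2.2),
   Finset.univ.filter fun b => hf K b = l.2.1 ∧ (l.1 ≠ l.2.1 ∨ cls K hK b = l.2.2))

lemma mem_box {K n : ℕ} (hK : 0 < K) (x : Fin n × Fin n) (l : Bool × Bool × Fin K) :
    x ∈ (box K hK n l).1 ×ˢ (box K hK n l).2 ↔ label K hK x = l := by
  obtain ⟨s, t, c⟩ := l
  obtain ⟨a, b⟩ := x
  simp only [box, label, Finset.mem_product, Finset.mem_filter, Finset.mem_univ, true_and,
    Prod.mk.injEq]
  constructor
  · rintro ⟨⟨h1, h2⟩, h3, h4⟩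
    subst h1; subst h3
    refine ⟨rfl, rfl, ?_⟩
    split_ifs with h
    · rcases h4 with h4 | h4
      · exact absurd h h4
      · exact h4
    · rcases h2 with h2 | h2
      · exact absurd h2 h
      · exact h2
  · rintro ⟨h1, h2, h3⟩
    subst h1; subst h2
    split_ifs at h3 with h
    · exact ⟨⟨rfl, Or.inl h⟩, rfl, Or.inr h3⟩
    · exact ⟨⟨rfl, Or.inr h3⟩, rfl, Or.inl h⟩

lemma label_rep {K n : ℕ} (hK : 0 < K) (hn : 2 * K ≤ n) (s t : Bool) (c d : Fin K) :
    label K hK (rep K hn s c, rep K hn t d) = (s, t, if s = t then d else c) := by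
  simp only [label, hf_rep, cls_rep]

lemma box_injective {K n : ℕ} (hK : 0 < K) (hn : 2 * K ≤ n) :
    Function.Injective (box K hK n) := by
  rintro ⟨s, t, c⟩ l' h
  have h1 : (rep K hn s c, rep K hn t c) ∈
      (box K hK n (s, t, c)).1 ×ˢ (box K hK n (s, t, c)).2 := by
    rw [mem_box, label_rep]
    simp
  rw [h, mem_box, label_rep] at h1
  simpa using h1

/-- the partition -/
def part (K : ℕ) (hK : 0 < K) (n : ℕ) : Finset (Finset (Fin n) × Finset (Fin n)) :=
  Finset.univ.image (box K hK n)

lemma part_spec {K n : ℕ} (hK : 0 < K) (hn : 2 * K ≤ n) :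
    IsPiercingPartition n (K + 1) (part K hK n) := by
  classical
  refine ⟨?_, ?_, ?_, ?_⟩
  · intro B hB
    obtain ⟨⟨s, t, c⟩, -, rfl⟩ := Finset.mem_image.1 hB
    have h1 : (rep K hn s c, rep K hn t c) ∈
        (box K hK n (s, t, c)).1 ×ˢ (box K hK n (s, t, c)).2 := by
      rw [mem_box, label_rep]
      simp
    obtain ⟨h1, h2⟩ := Finset.mem_product.1 h1
    refine ⟨⟨_, h1⟩, ⟨_, h2⟩, fun h => ?_, fun h => ?_⟩
    · have := Finset.mem_univ (rep K hn (!s) c)
      rw [← h] at this
      simp only [box, Finset.mem_filter, hf_rep] at this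
      exact absurd this.2.1 (by cases s <;> decide)
    · have := Finset.mem_univ (rep K hn (!t) c)
      rw [← h] at this
      simp only [box, Finset.mem_filter, hf_rep] at this
      exact absurd this.2.1 (by cases t <;> decide)
  · intro x
    refine ⟨box K hK n (label K hK x), ⟨Finset.mem_image_of_mem _ (Finset.mem_univ _),
      (mem_box hK x _).2 rfl⟩, ?_⟩
    rintro B ⟨hB, hx⟩
    obtain ⟨l, -, rfl⟩ := Finset.mem_image.1 hB
    rw [(mem_box hK x l).1 hx]
  · intro i
    have hcard : Fintype.card (Option (Fin K)) = K + 1 := by simp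
    rw [← hcard, ← Finset.card_univ]
    refine Finset.card_le_card_of_injOn (fun o => o.elim
        (box K hK n (hf K i, !(hf K i), cls K hK i)) (fun c => box K hK n (hf K i, hf K i, c)))
        ?_ ?_
    · intro o _
      simp only [Finset.coe_filter, Set.mem_ofPred_eq]
      cases o with
      | none =>
        refine ⟨Finset.mem_image_of_mem _ (Finset.mem_univ _),
          (i, rep K hn (!(hf K i)) ⟨0, hK⟩), ?_, rfl⟩
        simp only [Option.elim_none]
        rw [mem_box]
        simp only [label, hf_rep]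
        cases hf K i <;> simp
      | some c =>
        refine ⟨Finset.mem_image_of_mem _ (Finset.mem_univ _),
          (i, rep K hn (hf K i) c), ?_, rfl⟩
        simp only [Option.elim_some]
        rw [mem_box]
        simp only [label, hf_rep, cls_rep, if_true]
    · intro o _ o' _ h
      cases o with
      | none =>
        cases o' with
        | none => rfl
        | some c =>
          simp only [Option.elim_none, Option.elim_some] at h
          have := box_injective hK hn h
          simp at this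
      | some c =>
        cases o' with
        | none =>
          simp only [Option.elim_none, Option.elim_some] at h
          have := box_injective hK hn h
          simp at this
        | some c' =>
          simp only [Option.elim_some] at h
          have := box_injective hK hn h
          simpa using this
  · intro i
    have hcard : Fintype.card (Option (Fin K)) = K + 1 := by simp
    rw [← hcard, ← Finset.card_univ]
    refine Finset.card_le_card_of_injOn (fun o => o.elim
        (box K hK n (hf K i, hf K i, cls K hK i)) (fun c => box K hK n (!(hf K i), hf K i, c)))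
        ?_ ?_
    · intro o _
      simp only [Finset.coe_filter, Set.mem_ofPred_eq]
      cases o with
      | none =>
        refine ⟨Finset.mem_image_of_mem _ (Finset.mem_univ _),
          (rep K hn (hf K i) ⟨0, hK⟩, i), ?_, rfl⟩
        simp only [Option.elim_none]
        rw [mem_box]
        simp only [label, hf_rep, if_true]
      | some c =>
        refine ⟨Finset.mem_image_of_mem _ (Finset.mem_univ _),
          (rep K hn (!(hf K i)) c, i), ?_, rfl⟩
        simp only [Option.elim_some]
        rw [mem_box]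
        simp only [label, hf_rep, cls_rep]
        cases hf K i <;> simp
    · intro o _ o' _ h
      cases o with
      | none =>
        cases o' with
        | none => rfl
        | some c =>
          simp only [Option.elim_none, Option.elim_some] at h
          have := box_injective hK hn h
          simp at this
      | some c =>
        cases o' with
        | none =>
          simp only [Option.elim_none, Option.elim_some] at h
          have := box_injective hK hn h
          simp at this
        | some c' =>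
          simp only [Option.elim_some] at h
          have := box_injective hK hn h
          simpa using this

lemma part_card_le (K : ℕ) (hK : 0 < K) (n : ℕ) : (part K hK n).card ≤ 4 * K := by
  refine Finset.card_image_le.trans (le_of_eq ?_)
  simp only [Finset.card_univ, Fintype.card_prod, Fintype.card_bool, Fintype.card_fin]
  ring

theorem pBox_eq {n k : ℕ} (hk : 2 ≤ k) (hn : 2 * (k - 1) ≤ n) : pBox n k = 4 * (k - 1) := by
  obtain ⟨K, rfl⟩ : ∃ K, k = K + 1 := ⟨k - 1, by omega⟩
  simp only [Nat.add_sub_cancel] at hn ⊢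
  have hK : 0 < K := by omega
  have hn0 : 0 < n := by omega
  have hspec := part_spec hK hn
  have hcard : (part K hK n).card = 4 * K :=
    le_antisymm (part_card_le K hK n) (by simpa using lower hn0 hspec)
  refine le_antisymm (Nat.sInf_le ⟨part K hK n, hspec, hcard⟩) ?_
  have hne : {m | ∃ P : Finset (Finset (Fin n) × Finset (Fin n)),
      IsPiercingPartition n (K + 1) P ∧ P.card = m}.Nonempty := ⟨_, part K hK n, hspec, hcard⟩
  obtain ⟨P, hP, hPc⟩ := Nat.sInf_mem hne
  have := lower hn0 hP
  rw [hPc] at this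
  simpa [pBox] using this

/-- **MP_21d1af_co, Q1.**  For every `k ≥ 2` one has `p_box(2,k) = 4(k-1)`.  More precisely: every
partition of `[n]²` (`n ≥ 1`) into proper boxes with the `k`-piercing property has at least
`4(k-1)` parts; `p_box(n,2,k) = 4(k-1)` for every `n ≥ 2(k-1)`; and therefore
`p_box(n,2,k) → 4(k-1)` as `n → ∞`. -/
theorem result (k : ℕ) (hk : 2 ≤ k) :
    (∀ n : ℕ, 0 < n → ∀ P : Finset (Finset (Fin n) × Finset (Fin n)),
      IsPiercingPartition n k P → 4 * (k - 1) ≤ P.card) ∧
    (∀ n : ℕ, 2 * (k - 1) ≤ n → pBox n k = 4 * (k - 1)) ∧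
    Tendsto (fun n => pBox n k) atTop (𝓝 (4 * (k - 1))) := by
  refine ⟨fun n hn P hP => lower hn hP, fun n hn => pBox_eq hk hn, ?_⟩
  refine tendsto_const_nhds.congr' ?_
  filter_upwards [eventually_ge_atTop (2 * (k - 1))] with n hn
  exact (pBox_eq hk hn).symm

end Pool.Agent.Results.MP_21d1af_co.BoxPiercing
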